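import Pool.Agent.Helper23.WC.Spec

/-!
# Part FINW: the exponents of given weight form a finite set
-/

set_option autoImplicit false

namespace Pool.Agent.Helper52.WL.FINW

open MvPolynomial Pool.Agent.W600.Alg Pool.Agent.Helper23.CC Pool.Agent.Helper23.WC

theorem main : St_FINW := by
  intro n r e he D m
  have hfin : {m : Fin (n + 1) ⊕ Fin r →₀ ℕ | Finsupp.weight (wt e) m = D}.Finite := by
    refine (Finsupp.finite_of_nat_weight_le (wt e) ?_ D).subset ?_
    · intro x
      rcases x with x | x
      · simp [wt]
      · have := he x
        simp only [wt, Sum.elim_inr]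
        omega
    · intro m hm
      exact le_of_eq hm
  unfold wset
  rw [dif_pos hfin, Set.Finite.mem_toFinset]
  rfl

end Pool.Agent.Helper52.WL.FINW
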