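import Pool.Agent.Helper23.WC.Spec

/-!
# Part FINR: a rational curve over a line contradicts both properties
-/

set_option autoImplicit false

namespace Pool.Agent.Helper52.WL.FINR

open MvPolynomial Pool.Agent.W600.Alg Pool.Agent.Helper23.CC Pool.Agent.Helper23.WC

variable {K : Type} [Field K] {n r s : ℕ}

/-- the map to the curve given by parameters `S`, `T` -/
def cmap {X : Type} (e : Fin r → ℕ) (P Q : Fin (n + 1) → K) (c : Fin r → ℕ → K) (S T : X → K) :
    X → (Fin (n + 1) → K) × (Fin r → K) :=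
  fun u => (fun l => S u * P l + T u * Q l, fun i => bf (e i) (c i) (S u) (T u))

theorem isMor {e : Fin r → ℕ} {P Q : Fin (n + 1) → K} {c : Fin r → ℕ → K} {σ : Src K} {D : ℕ}
    {S T : σ.Pt → K} (hS : σ.Reg D S) (hT : σ.Reg D T) : IsMor e σ D (cmap e P Q c S T) := by
  refine ⟨fun l => ?_, fun i => ?_⟩
  · have := reg_add (reg_cmul (P l) hS) (reg_cmul (Q l) hT)
    refine (congrArg (σ.Reg D) (funext fun u => ?_)).mp this
    simp only [cmap]
    ring
  · simp only [cmap, bf]
    refine reg_sum _ (fun l hl => ?_) (reg_zero _ _)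
    have hl' : l ≤ e i := by
      have := Finset.mem_range.1 hl
      omega
    have h1 := reg_cmul (c i l) (reg_mul (reg_pow hS l) (reg_pow hT (e i - l)))
    have h2 : l * D + (e i - l) * D = D * e i := by
      rw [← add_mul, Nat.add_sub_cancel' hl', mul_comm]
    rw [h2] at h1
    refine (congrArg (σ.Reg (D * e i)) (funext fun u => ?_)).mp h1
    ring

theorem mem_wpts {e : Fin r → ℕ} {H : Fin s → MvPolynomial (Fin (n + 1) ⊕ Fin r) K}
    {P Q : Fin (n + 1) → K} {i j : Fin (n + 1)} {c : Fin r → ℕ → K}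
    (h1 : P i = 1) (h2 : P j = 0) (h3 : Q i = 0) (h4 : Q j = 1)
    (h : ∀ a (x y : K), aeval (Sum.elim (fun l => x * P l + y * Q l) fun i => bf (e i) (c i) x y)
      (H a) = 0) {X : Type} {S T : X → K} (hne : ∀ u, S u ≠ 0 ∨ T u ≠ 0) (u : X) :
    cmap e P Q c S T u ∈ WPts H := by
  refine ⟨?_, fun a => ?_⟩
  · intro h0
    have hi := congrFun h0 i
    have hj := congrFun h0 j
    simp only [cmap, h1, h2, h3, h4, mul_one, mul_zero, add_zero, zero_add, Pi.zero_apply] at hi hj
    rcases hne u with h5 | h5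
    · exact h5 hi
    · exact h5 hj
  · have := h a (S u) (T u)
    rw [show ∀ (g : Fin (n + 1) ⊕ Fin r → K) (p : MvPolynomial (Fin (n + 1) ⊕ Fin r) K),
      aeval g p = eval g p from fun g p => by rw [← coe_aeval_eq_eval]; rfl] at this
    exact this

theorem not_same' {e : Fin r → ℕ} {P Q : Fin (n + 1) → K} {i j : Fin (n + 1)} {c : Fin r → ℕ → K}
    (h1 : P i = 1) (h2 : P j = 0) (h3 : Q i = 0) (h4 : Q j = 1)
    {X : Type} {S T : X → K} {u v : X}
    (h : Same e (cmap e P Q c S T u) (cmap e P Q c S T v)) : S u * T v = S v * T u := by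
  obtain ⟨a, -, ha, -⟩ := h
  have hi := ha i
  have hj := ha j
  simp only [cmap, h1, h2, h3, h4, mul_one, mul_zero, add_zero, zero_add] at hi hj
  rw [hi, hj]
  ring

theorem main : St_FINR := by
  intro K _ _ _ n r s e H hL
  obtain ⟨P, Q, i, j, c, h1, h2, h3, h4, h⟩ := hL
  constructor
  · intro hR
    let S : (Src.ga : Src K).Pt → K := fun t => t
    let T : (Src.ga : Src K).Pt → K := fun _ => 1
    have hS : (Src.ga : Src K).Reg 0 S := ⟨Polynomial.X, fun t => by simp [S]⟩
    have hT : (Src.ga : Src K).Reg 0 T := reg_const _ 1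
    have hmor : IsMor e Src.ga 0 (cmap e P Q c S T) := isMor hS hT
    have := hR 0 (cmap e P Q c S T) hmor
      (fun t => mem_wpts h1 h2 h3 h4 h (fun _ => Or.inr one_ne_zero) t) (0 : K) (1 : K)
    have h5 := not_same' h1 h2 h3 h4 this
    have h6 : (0 : K) * 1 = 1 * 1 := h5
    simp at h6
  · intro hG
    have hab : 4 * (1 : K) ^ 3 + 27 * (0 : K) ^ 2 ≠ 0 := by norm_num
    let S : (Src.ell (1 : K) 0 hab).Pt → K := fun t => t.1 0
    let T : (Src.ell (1 : K) 0 hab).Pt → K := fun t => t.1 2 ^ 2
    have hS : (Src.ell (1 : K) 0 hab).Reg 2 S := reg_x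
    have hT : (Src.ell (1 : K) 0 hab).Reg 2 T := reg_pow reg_z 2
    have hmor : IsMor e (Src.ell (1 : K) 0 hab) 2 (cmap e P Q c S T) := isMor hS hT
    have hne : ∀ u, S u ≠ 0 ∨ T u ≠ 0 := by
      intro u
      by_contra hcon
      push Not at hcon
      obtain ⟨h5, h6⟩ := hcon
      have h7 : u.1 0 = 0 := h5
      have h8 : u.1 2 = 0 := by
        have : u.1 2 ^ 2 = 0 := h6
        exact pow_eq_zero_iff (two_ne_zero) |>.1 this
      have h9 := u.2.2
      rw [h7, h8] at h9
      have h10 : u.1 1 = 0 := by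
        have : u.1 1 ^ 2 = 0 := by rw [h9]; ring
        exact pow_eq_zero_iff (two_ne_zero) |>.1 this
      apply u.2.1
      funext l
      fin_cases l
      · exact h7
      · exact h10
      · exact h8
    let u : (Src.ell (1 : K) 0 hab).Pt := ⟨![1, 1, 0], by
      constructor
      · intro h0
        have := congrFun h0 0
        simp at this
      · simp⟩
    let v : (Src.ell (1 : K) 0 hab).Pt := ⟨![0, 0, 1], by
      constructor
      · intro h0
        have := congrFun h0 2
        simp at this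
      · simp⟩
    have := hG 1 0 hab 2 (cmap e P Q c S T) hmor (fun t => mem_wpts h1 h2 h3 h4 h hne t) u v
    have h5 := not_same' h1 h2 h3 h4 this
    have h6 : S u * T v = S v * T u := h5
    simp [S, T, u, v] at h6

end Pool.Agent.Helper52.WL.FINR
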